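import Pool.Agent.Y683.CM.CmG
import Pool.Agent.W287.HK.Basic
import Pool.Agent.W571.HK.Cls
import Pool.Agent.W53.HK.Fp
import Pool.Agent.W366.HK.Fpr
import Pool.Agent.W585.HK.LAT
import Pool.Agent.W692.HK.Ker
import Pool.Agent.W584.HK.CNT
import Pool.Agent.W856.HK.Dec
import Pool.Agent.W636.HK.Gauss
import Pool.Agent.W348.HK.Pois
import Pool.Agent.W29.HK.Prod

/-!
# Elliptic curves with complex multiplication over abelian extensions of `l`-power degree

Let `K` be an imaginary quadratic field of class number one, `R` its ring of integers and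
`E_1, …, E_r` elliptic curves over `K` with complex multiplication by `R`, with Hecke characters
`ψ_i` of conductors `f_i` and `L(E_i/K, 1) ≠ 0`.  For a ray class character `χ` of `K`,
`L(E_i/K, χ, s) = L(ψ_i χ, s) L(ψ̄_i χ, s)` and `L(ψ̄_i χ, 1)` is the complex conjugate of
`L(ψ_i χ⁻¹, 1)`; for the field `M` cut out by ray class characters `χ_1, …, χ_m` of order dividing
`l^b`, `L(E_i/M, s)` is the product of the `L(E_i/K, χ^a, s)` over the different products
`χ^a = χ_1^{a_1} ⋯ χ_m^{a_m}`.

The theorem: there is one positive integer `D` such that for all odd primes `l`, prime to the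
conductors, all places `v` above `l` where the curves have good reduction, and all `b`, `m`, every
group `H` of `m`-tuples of ray class characters of order dividing `l^b` whose conductors are products
of admissible primes (finite or infinite; no growth condition) has a finite subgroup `K_0`, of order
at most `(l^b)^(φ(l^b) ord_l(D) #A)`, such that every coset of `K_0` in `H` contains a tuple with
`L(ψ_i χ^a, 1) ≠ 0` for all `i` and all `a` in the given finite set `A` of exponents.  With `A` the
set of all exponents between `0` and `l^b` this says `L(E_i/M, 1) ≠ 0` for the field `M` cut out by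
the tuple; with the theorem of Coates and Wiles, Arthaud and Rubin (not used here) `E_i(M)` is then
finite, as the conjecture of Birch and Swinnerton-Dyer predicts.  If `l` does not divide `D`, the
subgroup is trivial: all values are nonzero.  A prime `q` of `K` is admissible if it is prime to the
`f_i` and `ψ_i(q)` is not congruent to `1` at `v`; with the conjugate condition this says that the
order of the reduction of `E_i` modulo `q` is prime to `l`.

The proof: `conj L(ψ χ, 1)` is a period times `∑ χ⁻¹(x) G(x)` with a function `G` on `R/c` built from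
values of elliptic functions at torsion points, `v`-integral, with a constant term that is `L(ψ, 1)`.
The constant term is algebraic: it is integral at all valuations of `ℂ` that are trivial on the
algebraic numbers.  If a product of such sums vanishes on a coset of a subgroup, the sums of the
coefficients over the fibres of the characters of the subgroup gain a factor `1 - ζ` when the subgroup
is enlarged by an element of the coset; at the trivial subgroup they are Euler factors that are units
times the central values.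
-/

set_option autoImplicit false

open Complex

namespace Pool.Agent.Results.MP_1a91b9_nt.AbelianExtensionsCM

/-- The norm `N(I)` of an ideal (`0` for the zero ideal, whose residue ring is infinite). -/
noncomputable def norm {R : Subring ℂ} (I : Ideal R) : ℝ := (Nat.card (R ⧸ I) : ℝ)

/-- `ψ`, a function on the ideals of `R`, is a primitive Hecke character of conductor `f` and infinity
type `(n, 0)`: it is multiplicative, vanishes exactly at the zero ideal and the ideals not prime to
`f`, satisfies `ψ((α)) = α ^ n` for `α ≡ 1 mod f`, and this fails for every strictly larger ideal `f'`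
in place of `f`. -/
structure IsHecke {R : Subring ℂ} (n : ℕ) (f : Ideal R) (ψ : Ideal R → ℂ) : Prop where
  ne_bot : f ≠ ⊥
  mul : ∀ I J : Ideal R, ψ (I * J) = ψ I * ψ J
  eq_zero : ∀ I : Ideal R, ψ I = 0 ↔ (I = ⊥ ∨ ¬ IsCoprime I f)
  principal : ∀ α : R, α ≠ 0 → α - 1 ∈ f → ψ (Ideal.span {α}) = (α : ℂ) ^ n
  primitive : ∀ f' : Ideal R, f < f' → ∃ α : R, α ≠ 0 ∧ α - 1 ∈ f' ∧ IsCoprime (Ideal.span {α}) f ∧
    ψ (Ideal.span {α}) ≠ (α : ℂ) ^ n

theorem isHecke_iff {R : Subring ℂ} (n : ℕ) (f : Ideal R) (ψ : Ideal R → ℂ) :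
    IsHecke n f ψ ↔ Pool.Agent.W192.HK.HC n f ψ :=
  ⟨fun h => ⟨h.ne_bot, h.mul, h.eq_zero, h.principal, h.primitive⟩,
    fun h => ⟨h.ne, h.mul, h.zero, h.princ, h.prim⟩⟩

/-- Families `(χ_q)` of characters of the rings `R/q`. -/
def Family (R : Subring ℂ) : Type := (q : Ideal R) → MulChar (R ⧸ q) ℂ

/-- The families form a group under pointwise multiplication. -/
noncomputable instance familyGroup (R : Subring ℂ) : CommGroup (Family R) :=
  @Pi.commGroup (Ideal R) (fun q => MulChar (R ⧸ q) ℂ) fun _ => MulChar.commGroup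

/-- The component `χ_q` is not the trivial character. -/
def Ramified {R : Subring ℂ} (χ : Family R) (q : Ideal R) : Prop := χ q ≠ 1

/-- The value `χ_q(x mod q)`. -/
noncomputable def localValue {R : Subring ℂ} (χ : Family R) (q : Ideal R) (x : R) : ℂ :=
  χ q (Ideal.Quotient.mk q x)

/-- The family `χ` is a ray class character of squarefree conductor prime to `f`: finitely many
components are nontrivial, they belong to nonzero maximal ideals `q` prime to `f`, and the product of
the `χ_q` is trivial on the units of `R`. -/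
structure IsRayClass {R : Subring ℂ} (f : Ideal R) (χ : Family R) : Prop where
  finite : {q | Ramified χ q}.Finite
  maximal : ∀ q, Ramified χ q → q.IsMaximal ∧ q ≠ ⊥ ∧ IsCoprime f q
  units : ∀ u : R, IsUnit u → ∏ᶠ (q : Ideal R) (_ : Ramified χ q), localValue χ q u = 1

/-- The value of the ray class character `χ` at the ideal `I = (α)`: the product of the `χ_q(α)` over
all `q` with `χ_q ≠ 1` (so it is the primitive character). -/
noncomputable def value {R : Subring ℂ} [IsPrincipalIdealRing R] (χ : Family R) (I : Ideal R) : ℂ :=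
  ∏ᶠ (q : Ideal R) (_ : Ramified χ q), localValue χ q (Submodule.IsPrincipal.generator I)

/-- `F` is entire and `F(s) = ∑ ψ(I) χ(I) N(I)^(-s)` for `Re s > 3/2`. -/
def IsLFunction {R : Subring ℂ} [IsPrincipalIdealRing R] (ψ : Ideal R → ℂ) (χ : Family R)
    (F : ℂ → ℂ) : Prop :=
  Differentiable ℂ F ∧ ∀ s : ℂ, 3 / 2 < s.re →
    HasSum (fun I : Ideal R => ψ I * value χ I * (norm I : ℂ) ^ (-s)) (F s)

/-- `R = ℤ + ℤ ω` for some `ω` in the upper half plane. -/
def IsQuadratic (R : Subring ℂ) : Prop :=
  ∃ ω : ℂ, 0 < ω.im ∧ ∀ z : ℂ, z ∈ R ↔ ∃ x y : ℤ, z = x + y * ω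

/-- `P` generates the lattice `Ω R`, `Ω ≠ 0`, and its invariants `g₂`, `g₃` are algebraic numbers. -/
def IsLattice (R : Subring ℂ) (P : PeriodPair) (Ω : ℂ) : Prop :=
  Ω ≠ 0 ∧ (∀ z : ℂ, z ∈ P.lattice ↔ ∃ x : R, z = Ω * x) ∧ IsAlgebraic ℚ P.g₂ ∧ IsAlgebraic ℚ P.g₃

/-- The curve `y² = 4 x³ - g₂ x - g₃` of the lattice has `v`-integral coefficients and good reduction
at `v` (with unit discriminant). -/
def Good {Γ : Type} [LinearOrderedCommGroupWithZero Γ] (v : Valuation ℂ Γ) (P : PeriodPair) : Prop :=
  v P.g₂ ≤ 1 ∧ v P.g₃ ≤ 1 ∧ v (P.g₂ ^ 3 - 27 * P.g₃ ^ 2) = 1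

/-- The components of the tuples in `H` are ray class characters of order dividing `l ^ b` and of
squarefree conductors prime to the `f_i`, and `ψ_i(q)` is not congruent to `1` at `v` for all `i` and
all primes `q` dividing these conductors. -/
def Admissible {R : Subring ℂ} {Γ : Type} [LinearOrderedCommGroupWithZero Γ] (v : Valuation ℂ Γ)
    {r m : ℕ} (f : Fin r → Ideal R) (ψ : Fin r → Ideal R → ℂ) (l b : ℕ)
    (H : Subgroup (Fin m → Family R)) : Prop :=
  ∀ χ ∈ H, χ ^ (l ^ b) = 1 ∧
    ∀ k i, IsRayClass (f i) (χ k) ∧ ∀ q, Ramified (χ k) q → v (ψ i q - 1) = 1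

/-- `H` has a finite subgroup `K` of order at most `B` such that every coset `φ K` of `K` in `H`
contains an element with the property `N`. -/
def CosetsContain {G : Type} [Group G] (H : Subgroup G) (B : ℕ) (N : G → Prop) : Prop :=
  ∃ K : Subgroup G, K ≤ H ∧ Finite K ∧ Nat.card K ≤ B ∧ ∀ φ ∈ H, ∃ κ ∈ K, N (φ * κ)

/-- The ray class character `χ_1^{a_1} ⋯ χ_m^{a_m}`. -/
noncomputable def monomial {R : Subring ℂ} {m : ℕ} (a : Fin m → ℤ) (χ : Fin m → Family R) :
    Family R := ∏ k, χ k ^ a k

theorem isRayClass_iff {R : Subring ℂ} (f : Ideal R) (χ : Family R) :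
    IsRayClass f χ ↔ Pool.Agent.Y683.CM.RayF f χ :=
  ⟨fun h => ⟨h.finite, h.maximal, h.units⟩, fun h => ⟨h.fin, h.max, h.unit⟩⟩

/-- **Main theorem.** Let `R` be the ring of integers of an imaginary quadratic field, a principal
ideal ring, and `ψ_1, …, ψ_r` primitive Hecke characters of conductors `f_i` and infinity type `(1, 0)`
on the ideals of `R`.  There are entire functions `L i χ`, the `L`-functions of the `ψ_i χ`, for the ray
class characters `χ` of squarefree conductor prime to `f_i`; and if `L i 1 1 ≠ 0` for all `i`, the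
following holds.  Let `Ω_i R` be lattices with algebraic invariants `g₂`, `g₃`.  There is a positive
integer `D` such that for all odd primes `l` that do not divide the `N(f_i)`, all valuations `v` of `ℂ`
with `v(l) < 1` at which the lattices have good reduction, all `b`, `m`, all finite sets `A` of exponents
and all groups `H` of `m`-tuples of ray class characters of squarefree conductors prime to the `f_i` and
of order dividing `l^b`, such that `v(ψ_i(q) - 1) = 1` for all `i` and all primes `q` dividing the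
conductors: `H` has a finite subgroup `K` of order at most `(l^b)^(φ(l^b) ord_l(D) #A)`, every coset of
which in `H` contains a tuple `χ` such that `L i (χ_1^{a_1} ⋯ χ_m^{a_m}) 1 ≠ 0` for all `i` and all `a`
in `A`. -/
theorem result (R : Subring ℂ) [IsPrincipalIdealRing R] (hR : IsQuadratic R) (r : ℕ)
    (f : Fin r → Ideal R) (ψ : Fin r → Ideal R → ℂ) (hψ : ∀ i, IsHecke 1 (f i) (ψ i)) :
    ∃ L : Fin r → Family R → ℂ → ℂ,
      (∀ (i : Fin r) (χ : Family R), IsRayClass (f i) χ → IsLFunction (ψ i) χ (L i χ)) ∧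
      ((∀ i, L i 1 1 ≠ 0) →
        ∀ (P : Fin r → PeriodPair) (Ω : Fin r → ℂ), (∀ i, IsLattice R (P i) (Ω i)) →
        ∃ D : ℕ, 0 < D ∧ ∀ l : ℕ, l.Prime → l ≠ 2 → (∀ i, ¬ l ∣ Nat.card (R ⧸ f i)) →
          ∀ (Γ : Type) [LinearOrderedCommGroupWithZero Γ] (v : Valuation ℂ Γ), v (l : ℂ) < 1 →
          (∀ i, Good v (P i)) →
          ∀ (b m : ℕ) (A : Finset (Fin m → ℤ)) (H : Subgroup (Fin m → Family R)),
          Admissible v f ψ l b H →
          CosetsContain H ((l ^ b) ^ ((l ^ b).totient * padicValNat l D * A.card))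
            (fun χ => ∀ a ∈ A, ∀ i, L i (monomial a χ) 1 ≠ 0)) := by
  classical
  obtain ⟨ω, hω, hR⟩ := hR
  have hbasic := Pool.Agent.W287.HK.h_basic
  have hcls := Pool.Agent.W571.HK.h_cls hbasic
  have hfp := Pool.Agent.W53.HK.h_fp hbasic hcls
  have hfpr := Pool.Agent.W366.HK.h_fpr hbasic hcls
  have hlat := Pool.Agent.W585.HK.h_lat hbasic
  have hker := Pool.Agent.W692.HK.h_ker hbasic hcls hfpr
  have hcnt := Pool.Agent.W584.HK.h_cnt hbasic hcls hfpr hlat hker
  have hdec := Pool.Agent.W856.HK.h_dec hbasic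
  have hgauss := Pool.Agent.W636.HK.h_gauss hbasic hfp
  have hpois := Pool.Agent.W348.HK.h_pois hbasic
  have htheta := Pool.Agent.TH936.HK.h_theta hbasic hfp hdec hgauss hpois hcnt
  have hafe := Pool.Agent.TH936.HK.h_afe hbasic hfp hcnt hgauss htheta
  have hprod := Pool.Agent.W29.HK.h_prod hbasic hfp
  have hx : Pool.Agent.Y683.CM.Facts := ⟨hbasic, hfp, hcnt, hdec, hafe, hprod⟩
  have hded : IsDedekindDomain R := inferInstance
  have hQ : Pool.Agent.W192.HK.QR R ω := ⟨hω, hR, hded⟩
  choose f0 hf0 using fun i => (⟨_, (Submodule.IsPrincipal.span_singleton_generator (f i)).symm⟩ :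
    ∃ f0 : R, f i = Ideal.span {f0})
  obtain rfl : f = fun i => Pool.Agent.W192.HK.sp (f0 i) := funext hf0
  have hψ' : ∀ i, Pool.Agent.W192.HK.HC 1 (Pool.Agent.W192.HK.sp (f0 i)) (ψ i) := fun i =>
    (isHecke_iff _ _ _).1 (hψ i)
  have hfin : ∀ i, Finite (R ⧸ Pool.Agent.W192.HK.sp (f0 i)) := fun i =>
    (hbasic R ω hQ).1 _ (hψ' i).ne
  refine ⟨fun i χ => Pool.Agent.Y683.CM.Lf (ψ i) χ, fun i χ hχ => ?_, fun hne P Ω hP => ?_⟩
  · have : Fintype (R ⧸ Pool.Agent.W192.HK.sp (f0 i)) := Fintype.ofFinite _
    obtain ⟨h1, h2, -⟩ := Pool.Agent.Y683.CM.lf_val hx hQ (hψ' i) ((isRayClass_iff _ _).1 hχ)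
    exact ⟨h1, h2⟩
  · obtain ⟨D, hD, h1⟩ := Pool.Agent.Y683.CM.main_unif hx hQ hψ' hne (P := P) (Ω := Ω)
      (fun i => ⟨(hP i).1, (hP i).2.1⟩) (fun i => (hP i).2.2.1) (fun i => (hP i).2.2.2)
    refine ⟨D, hD, ?_⟩
    intro l hl hl2 hlf Γ _ v hv hG b m A H hH
    exact h1 l hl hl2 hlf Γ v hv (fun i => (hG i).1) (fun i => (hG i).2.1) (fun i => (hG i).2.2)
      b m A H fun χ hχ =>
      ⟨(hH χ hχ).1, fun k i => ⟨(isRayClass_iff _ _).1 ((hH χ hχ).2 k i).1, ((hH χ hχ).2 k i).2⟩⟩

end Pool.Agent.Results.MP_1a91b9_nt.AbelianExtensionsCM
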