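import Pool.Agent.Y698.SG.Fj
import Pool.Agent.Y698.SG.Ug
import Pool.Agent.Y698.SG.Uj
import Pool.Agent.Y698.SG.Dwc
import Pool.Agent.Y698.SG.Ebb

/-!
# All the quadratic twists of `X_0(49)` by primes `≡ 1 mod 4` over the subfields of degree `2 ^ n` of
# `ℚ(ζ_r)`: the Birch and Swinnerton-Dyer formula modulo the primes above two

`r` is a prime number with `r ≡ 1 mod 4` which is inert in `ℚ(√-7)`, and `K` is the subfield of degree
`2 ^ n` of `ℚ(ζ_r)`, for any `n ≥ 1` such that `2 ^ n` divides `r - 1`; `K` is totally real or totally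
complex. `D` is ANY product of distinct primes `≡ 1 mod 4` different from `r`: `Q` is the set of those
which are inert in `ℚ(√-7)`, `P` the set of those which split in `ℚ(√-7)`. (The only case which is
left out is that `P` is empty and all the `q²` with `q ∈ Q` are `2 ^ n`-th powers modulo `r`, which we
treated in `TwistsTwoPart`; in this case the unit case below holds.)
`E_D` is the quadratic twist by `D` of `X_0(49) : y² + x y = x³ - x² - 2 x - 1`.

Let `z = √|Disc K| #E_D(K)_tors² L(E_D/K, 1) / (Ω ∏ c_v)`, which is zero or the order of `Ш(E_D/K)`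
according to the conjecture. The theorem says, with no hypothesis on the rank or on `Ш`:
* `L(E_D/K, s)` is entire, the equation of `E_D` is minimal at all finite places of `K`, the order of
  the torsion subgroup of `E_D(K)` is twice an odd number;
* `z / S²` is an algebraic number which is integral at all the primes above two, `S` being the product
  of the residue degrees `f_w` for the places `w` of `K` above the primes of `P` and of the `f_w / 2` for
  the places `w` above the primes of `Q` with even residue degree;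
* `z` is a unit at one prime above two if and only if it is so at all of them, if and only if `E_D(K)`
  is finite and `Ш(E_D/K)` has no element of order two: both sides of the formula are equal modulo the
  primes above two;
* this happens if and only if the primes `p ∈ P` split completely in `K`, the Frobenius elements of the
  primes `q ∈ Q` in `Gal(K/ℚ)` have order one or two, and a matrix over `𝔽₂` with rows and columns
  indexed by `P`, made of the quadratic residue symbols `(q/p)`, `(p'/p)` and the quartic symbols of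
  `-7` modulo `p`, is not singular;
* then `L(E_D/K, 1) ≠ 0`, the 2-primary part of `Ш(E_D/K)` is zero, and
  `∏ c_v = 2 ^ (1 + (#Q + 2 #P) 2 ^ n)`;
* if `E_D(K)` is finite, then `Ш(E_D/K)[2]` has at least `2 ^ b` elements, `b` being the dimension of the
  kernel of a matrix made of the same symbols, with rows indexed by the primes `p ∈ P` which split
  completely in `K`, and columns indexed by `P` and the `q ∈ Q` with Frobenius element of order `> 2`
  (the kernel is zero exactly in the unit case).

Proof.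
* Analytic side. `L(E_D/K, s)` is the product of the `L(ψ ε (χ ∘ N), s)`, `ψ` the Hecke character of
  `X_0(49)`, `ε` the quadratic character of `D` and `χ` the characters of `Gal(K/ℚ)`. The values at
  `s = 1` are expressed by `℘`-functions at division points. The character `ε ∘ N` is the product of the
  quadratic characters of the primes of `ℚ(√-7)` above `D`; the sum over all the subsets of this set of
  primes is divisible by a known power of two, and an induction on the subsets gives the value modulo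
  the primes above two as the determinant of a Laplacian-type matrix of the quadratic residue symbols
  between the primes of `ℚ(√-7)`, or an upper bound if `χ` is not trivial at some prime of `D`; the
  product of the bounds over the characters `χ` gives `S²`. By the reciprocity law this determinant is
  the square of the determinant of the matrix of size `P`.
* Periods. The integrals over `E(ℝ)` and `E(ℂ)` are computed with `℘`, as the least real period and
  twice the area of a fundamental domain of the lattice. The Tamagawa numbers are all computed.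
* Algebraic side. Unit case: a `2`-descent over `K(√-7)`, for points and for continuous cocycles that
  are locally trivial at all places; the cyclic group of order `2 ^ n` acts on the classes, which reduces
  it to elements of `ℚ(√-7)`; the local conditions above the primes of `P` are the linear equations of
  the same matrix. Other case: a kernel vector of the matrix, or a prime which does not split enough,
  gives a product `d ≠ 1` of primes of `D` such that the class of `d` in the descent by the rational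
  2-isogeny is locally trivial at all places of `K`; it comes from a nontrivial element of order two of
  `Ш(E_D/K)` if `E_D(K)` is finite. These elements are different for different `d`.
-/

set_option autoImplicit false

open NumberField NumberField.InfinitePlace IsDedekindDomain WeierstrassCurve MeasureTheory

namespace Pool.Agent.Results.MP_1a91b9_nt.FormulaModTwoAllTwists

open Pool.Agent.TH841.NF.D (Sha)
open Pool.Agent.TH841.SH.D (Pt)

/-- For `D ≡ 1 mod 4` the quadratic twist by `D` of the elliptic curve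
`X_0(49) : y² + x y = x³ - x² - 2 x - 1`:
the curve `y² + x y = x³ - (3 D + 1) / 4 x² - 2 D² x - D³`. -/
def twist (D : ℕ) : WeierstrassCurve ℤ := ⟨1, -((3 * D + 1) / 4), 0, -2 * D ^ 2, -D ^ 3⟩

/-- The curve given by the equation of `W` over the ring `R`. -/
abbrev base (W : WeierstrassCurve ℤ) (R : Type) [CommRing R] : WeierstrassCurve R :=
  W.map (Int.castRingHom R)

section

variable {K : Type} [Field K] [NumberField K]

/-- The equation is minimal at the finite place `v` of `K`: no change of variables over `K` that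
keeps the coefficients integral at `v` decreases the order of the discriminant. -/
def MinimalAt (W : WeierstrassCurve K) (v : HeightOneSpectrum (𝓞 K)) : Prop :=
  ∀ C : VariableChange K, v.valuation K (C • W).a₁ ≤ 1 → v.valuation K (C • W).a₂ ≤ 1 →
    v.valuation K (C • W).a₃ ≤ 1 → v.valuation K (C • W).a₄ ≤ 1 → v.valuation K (C • W).a₆ ≤ 1 →
    v.valuation K (C • W).Δ ≤ v.valuation K W.Δ

/-- `W⁰(K_v)`, the group of the points of `W` over the completion `K_v` with nonsingular reduction:
the point at infinity and the points `(x, y)` where `x` is not integral, or one of the partial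
derivatives of `y² + a₁ x y + a₃ y - x³ - a₂ x² - a₄ x - a₆` is a unit at `(x, y)`.
Here `Pt W K_v` is the group of the points of `W` over `K_v`. -/
noncomputable def nonsing (W : WeierstrassCurve K) (v : HeightOneSpectrum (𝓞 K)) :
    AddSubgroup (Pt W (v.adicCompletion K)) :=
  AddSubgroup.closure {P | ∀ x y h, P = Affine.Point.some x y h →
    1 < Valued.v x ∨
    Valued.v ((W.baseChange (v.adicCompletion K)).a₁ * y -
      (3 * x ^ 2 + 2 * (W.baseChange (v.adicCompletion K)).a₂ * x +
        (W.baseChange (v.adicCompletion K)).a₄)) = 1 ∨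
    Valued.v (2 * y + (W.baseChange (v.adicCompletion K)).a₁ * x +
      (W.baseChange (v.adicCompletion K)).a₃) = 1}

/-- The Tamagawa number `c_v = [W(K_v) : W⁰(K_v)]` of a minimal equation. -/
noncomputable def c (W : WeierstrassCurve K) (v : HeightOneSpectrum (𝓞 K)) : ℕ :=
  (nonsing W v).index

/-- The product of the Tamagawa numbers. -/
noncomputable def Tam (W : WeierstrassCurve K) : ℕ := ∏ᶠ v : HeightOneSpectrum (𝓞 K), c W v

/-- The 2-primary part of the Tate-Shafarevich group over `K`. -/
def Sha2 (W : WeierstrassCurve K) : Set (Sha W) := {x | ∃ n : ℕ, 2 ^ n • x = 0}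

end

/-- `4 x³ + b₂ x² + 2 b₄ x + b₆ = (2 y + a₁ x + a₃)²`. -/
def cubic (W : WeierstrassCurve ℤ) {R : Type} [CommRing R] (x : R) : R :=
  4 * x ^ 3 + W.b₂ * x ^ 2 + 2 * W.b₄ * x + W.b₆

/-- `∫_{W(ℝ)} |ω|` with `ω = dx / (2 y + a₁ x + a₃)`, as an integral over `x`: two real points lie
over each `x` with `cubic x > 0`. -/
noncomputable def realPeriod (W : WeierstrassCurve ℤ) : ℝ :=
  2 * ∫ x in {x : ℝ | 0 < cubic W x}, 1 / √(cubic W x)

/-- `2 ∫_{W(ℂ)} |ω ∧ ω̄|`, where `|ω ∧ ω̄| = du dv` in a local parameter `z = u + i v` with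
`dz = ω`, as an integral over `x`: two points lie over a general `x`, and `|ω ∧ ω̄|` is the area
element of the plane of `x` divided by `|cubic x|`. -/
noncomputable def complexPeriod (W : WeierstrassCurve ℤ) : ℝ := 2 * (2 * ∫ x : ℂ, 1 / ‖cubic W x‖)

/-- `Ω_{W/K}`. -/
noncomputable def Omega (K : Type) [Field K] [NumberField K] (W : WeierstrassCurve ℤ) : ℝ :=
  realPeriod W ^ nrRealPlaces K * complexPeriod W ^ nrComplexPlaces K

open Classical in
/-- The order of the torsion subgroup of `W(K)`. -/
noncomputable def torsOrder (K : Type) [Field K] [NumberField K] (W : WeierstrassCurve ℤ) : ℕ :=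
  Nat.card (AddCommGroup.torsion (base W K).toAffine.Point)

/-- The order of the Tate-Shafarevich group predicted by the formula, for a curve with an equation that
is minimal at all finite places and the value `l` of its L-function at `s = 1`:
`√|Disc K| #W(K)_tors² l / (Ω_{W/K} ∏ c_v)`. -/
noncomputable def anOrder (K : Type) [Field K] [NumberField K] (W : WeierstrassCurve ℤ) (l : ℂ) : ℂ :=
  l * (√|(discr K : ℝ)| : ℝ) * (torsOrder K W : ℂ) ^ 2 / ((Omega K W : ℝ) * (Tam (base W K) : ℂ))

open Classical in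
/-- `1` if `m` is not a square modulo `p`, and `0` if it is -/
noncomputable def nonsq (p m : ℕ) : ZMod 2 := if IsSquare (m : ZMod p) then 0 else 1

open Classical in
/-- `1` if `-7` is not a fourth power modulo `p`, and `0` if it is -/
noncomputable def nonfourth (p : ℕ) : ZMod 2 := if ∃ y : ZMod p, y ^ 4 = -7 then 0 else 1

/-- The matrix over the field with two elements, with rows and columns indexed by `P`: the entry at
`(i, j)` is `nonsq i j` for `i ≠ j`, and the entry at `(i, i)` is the sum of `nonfourth i` and of the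
`nonsq i l` for all the `l ≠ i` in `Q` and `P`. -/
noncomputable def mat (Q P : Finset ℕ) : Matrix P P (ZMod 2) := Matrix.of fun i j =>
  if i = j then nonfourth i + ∑ q ∈ Q, nonsq i q + ∑ p ∈ P.erase i, nonsq i p else nonsq i j

open Classical in
/-- The primes `p ∈ P` which split completely in `K`. -/
noncomputable def rows (r n : ℕ) (P : Finset ℕ) : Finset ℕ :=
  P.filter fun p => ∃ y : ZMod r, y ^ 2 ^ n = (p : ZMod r)

open Classical in
/-- The primes `q ∈ Q` whose Frobenius elements in `K` do not have order one or two. -/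
noncomputable def rest (r n : ℕ) (Q : Finset ℕ) : Finset ℕ :=
  Q.filter fun q => ¬ ∃ y : ZMod r, y ^ 2 ^ n = (q : ZMod r) ^ 2

/-- The matrix with rows indexed by `rows` and columns indexed by `P` and `rest`, with the same entries
as `mat`: the entry at `(i, j)` is `nonsq i j` for `i ≠ j`, and the entry at `(i, i)` is the sum of
`nonfourth i` and of the `nonsq i l` for all the `l ≠ i` in `Q` and `P`. -/
noncomputable def bigmat (r n : ℕ) (Q P : Finset ℕ) :
    Matrix (rows r n P) (P ∪ rest r n Q : Finset ℕ) (ZMod 2) :=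
  Matrix.of fun i j =>
    if (i : ℕ) = j then nonfourth i + ∑ q ∈ Q, nonsq i q + ∑ p ∈ P.erase i, nonsq i p else nonsq i j

/-- The number of the columns minus the rank. -/
noncomputable def defect (r n : ℕ) (Q P : Finset ℕ) : ℕ :=
  (P ∪ rest r n Q).card - (bigmat r n Q P).rank

/-- The least `f ≥ 1` such that `m ^ f` is a `2 ^ n`-th power modulo `r`. For a prime `m ≠ r` it is the
residue degree of the places of `K` above `m`. -/
noncomputable def resDeg (r n m : ℕ) : ℕ :=
  sInf {f : ℕ | 0 < f ∧ ∃ y : ZMod r, y ^ 2 ^ n = (m : ZMod r) ^ f}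

/-- The product of the residue degrees of the places of `K` above the primes of `P` and of the halves of
the even residue degrees of the places above the primes of `Q` (there are `2 ^ n / f` places above a
prime with residue degree `f`). -/
noncomputable def low (r n : ℕ) (Q P : Finset ℕ) : ℕ :=
  (∏ q ∈ Q, resDeg r n (q ^ 2) ^ (2 ^ n / (2 * resDeg r n (q ^ 2)))) *
    ∏ p ∈ P, resDeg r n p ^ (2 ^ n / resDeg r n p)

/-- The primes `q ∈ Q` have Frobenius elements of order one or two in `K`, the primes `p ∈ P` split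
completely in `K`, and the matrix is not singular. -/
def Cond (r n : ℕ) (Q P : Finset ℕ) : Prop :=
  (∀ q ∈ Q, ∃ y : ZMod r, y ^ 2 ^ n = (q : ZMod r) ^ 2) ∧
    (∀ p ∈ P, ∃ y : ZMod r, y ^ 2 ^ n = (p : ZMod r)) ∧ (mat Q P).det ≠ 0

section proof

open Pool.Agent.Y698

lemma base_eq {D j : ℕ} (hj : D = 1 + 4 * j) (K : Type) [Field K] : base (twist D) K = AX K j :=
  twZ_map hj K

lemma cubic_eq {D j : ℕ} (hj : D = 1 + 4 * j) {R : Type} [CommRing R] (x : R) :
    cubic (twist D) x = psD (1 + 4 * j) x := by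
  have h1 : (3 * (D : ℤ) + 1) / 4 = 1 + 3 * j := by
    rw [hj]
    push_cast
    omega
  unfold cubic twist WeierstrassCurve.b₂ WeierstrassCurve.b₄ WeierstrassCurve.b₆ psD
  simp only
  rw [h1, hj]
  push_cast
  ring

lemma real_eq {D j : ℕ} (hj : D = 1 + 4 * j) : realPeriod (twist D) =
    ∫ x in {x : ℝ | 0 < psD (1 + 4 * j) x}, 2 / Real.sqrt (psD (1 + 4 * j) x) := by
  unfold realPeriod
  simp only [cubic_eq hj]
  rw [← integral_const_mul]
  congr 1
  funext x
  ring

lemma cplx_eq {D j : ℕ} (hj : D = 1 + 4 * j) : complexPeriod (twist D) =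
    ∫ x : ℂ, 4 / ‖psD (1 + 4 * j) x‖ := by
  unfold complexPeriod
  simp only [cubic_eq hj]
  rw [← mul_assoc, ← integral_const_mul]
  congr 1
  funext x
  ring

lemma mem_rows {r n p : ℕ} {P : Finset ℕ} :
    p ∈ rows r n P ↔ p ∈ P ∧ ∃ y : ZMod r, y ^ 2 ^ n = (p : ZMod r) := by
  simp only [rows, Finset.mem_filter]

lemma mem_rest {r n q : ℕ} {Q : Finset ℕ} :
    q ∈ rest r n Q ↔ q ∈ Q ∧ ¬ ∃ y : ZMod r, y ^ 2 ^ n = (q : ZMod r) ^ 2 := by
  simp only [rest, Finset.mem_filter]

end proof

/-- **The formula modulo the primes above two for all the quadratic twists of `X_0(49)` by primes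
`≡ 1 mod 4` over `K`.** -/
theorem result {r n : ℕ} (hr : r.Prime) (h4 : r % 4 = 1) (h7 : ¬ IsSquare (-7 : ZMod r))
    (hn : 1 ≤ n) (K : IntermediateField ℚ (CyclotomicField r ℚ))
    (hK : Module.finrank ℚ K = 2 ^ n)
    (Q : Finset ℕ) (hQ : ∀ q ∈ Q, q.Prime ∧ q % 4 = 1 ∧ ¬ IsSquare (-7 : ZMod q) ∧ q ≠ r)
    (P : Finset ℕ) (hP : ∀ p ∈ P, p.Prime ∧ p % 4 = 1 ∧ IsSquare (-7 : ZMod p))
    (_hne : P.Nonempty ∨ ∃ q ∈ Q, ¬ ∃ y : ZMod r, y ^ 2 ^ n = (q : ZMod r) ^ 2)
    (D : ℕ) (hD : D = (∏ q ∈ Q, q) * ∏ p ∈ P, p) :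
    (∀ v : HeightOneSpectrum (𝓞 K), MinimalAt (base (twist D) K) v) ∧
    (∃ t : ℕ, Odd t ∧ torsOrder K (twist D) = 2 * t) ∧
    ((Finite (base (twist D) K).toAffine.Point ∧
      ∀ x : Sha (base (twist D) K), x + x = 0 → x = 0) ↔ Cond r n Q P) ∧
    (Cond r n Q P → Sha2 (base (twist D) K) = {0} ∧
      Tam (base (twist D) K) = 2 ^ (1 + (Q.card + 2 * P.card) * 2 ^ n)) ∧
    (Finite (base (twist D) K).toAffine.Point →
      2 ^ defect r n Q P ≤ {x : Sha (base (twist D) K) | x + x = 0}.encard) ∧
    ∃ Λ : ℂ → ℂ, Differentiable ℂ Λ ∧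
      (∀ s : ℂ, 2 < s.re → Λ s = (base (twist D) K).LSeries s) ∧
      (low r n Q P ≠ 0 ∧
        ∃ m : ℤ, Odd m ∧ _root_.IsIntegral ℤ ((m : ℂ) * (anOrder K (twist D) (Λ 1) / (low r n Q P : ℂ) ^ 2))) ∧
      (∀ (Γ : Type) [LinearOrderedCommGroupWithZero Γ] (v : Valuation ℂ Γ), v 2 < 1 →
        v (anOrder K (twist D) (Λ 1)) ≤ 1 ∧
        (v (anOrder K (twist D) (Λ 1)) = 1 ↔ Cond r n Q P)) ∧
      (Cond r n Q P → Λ 1 ≠ 0 ∧
        ∃ m : ℤ, Odd m ∧ _root_.IsIntegral ℤ (m * (anOrder K (twist D) (Λ 1))⁻¹)) := by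
  have : Fact r.Prime := ⟨hr⟩
  have hM : IsCyclotomicExtension {r} ℚ (CyclotomicField r ℚ) := Pool.Agent.Y698.cyc_inst r
  have hN : Normal ℚ K := (Pool.Agent.Y698.isGalK r K (M := CyclotomicField r ℚ)).to_normal
  have hir : Pool.Agent.Y698.Inq r := ⟨hr, h4, h7⟩
  have hQ' : ∀ q ∈ Q, Pool.Agent.Y698.Inq q ∧ q ≠ r := fun q hq =>
    ⟨⟨(hQ q hq).1, (hQ q hq).2.1, (hQ q hq).2.2.1⟩, (hQ q hq).2.2.2⟩
  have hP' : ∀ p ∈ P, Pool.Agent.Y698.SG.Spl p := fun p hp => ⟨(hP p hp).1, (hP p hp).2.1, (hP p hp).2.2⟩
  have hPr : ∀ p ∈ P, p ≠ r := by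
    rintro p hp rfl
    exact h7 (hP p hp).2.2
  have hgp : ∀ q ∈ Q ∪ P, Pool.Agent.Y698.SG.Gp q ∧ q ≠ r := by
    intro q hq
    rcases Finset.mem_union.1 hq with h | h
    · exact ⟨Pool.Agent.Y698.SG.Gp.of_inq (hQ' q h).1, (hQ' q h).2⟩
    · exact ⟨Pool.Agent.Y698.SG.Gp.of_spl (hP' q h), hPr q h⟩
  have hdisj : Disjoint Q P := Pool.Agent.Y698.SG.disj_QP (fun q hq => (hQ' q hq).1) hP'
  have hDu : D = ∏ q ∈ Q ∪ P, q := by rw [hD, Finset.prod_union hdisj]
  have hm4 := Pool.Agent.Y698.prod_mod_four (S := Q ∪ P) fun q hq => (hgp q hq).1.m4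
  obtain ⟨j, hj⟩ : ∃ j, ∏ q ∈ Q ∪ P, q = 1 + 4 * j := ⟨(∏ q ∈ Q ∪ P, q) / 4, by omega⟩
  have hDj : D = 1 + 4 * j := by rw [hDu, hj]
  have han : ∀ l : ℂ, anOrder K (twist D) l = Pool.Agent.Y698.SG.quoT K j l := by
    intro l
    unfold anOrder torsOrder Omega
    rw [base_eq hDj, real_eq hDj, cplx_eq hDj]
    unfold Pool.Agent.Y698.SG.quoT Pool.Agent.Y698.SG.tnum
    have hT : Tam (Pool.Agent.Y698.AX K j) = ∏ᶠ v, Pool.Agent.Y698.tam (Pool.Agent.Y698.AX K j) v := rfl
    rw [hT]
    generalize (∏ᶠ v, Pool.Agent.Y698.tam (Pool.Agent.Y698.AX K j) v : ℕ) = t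
    push_cast
    rfl
  have hst : torsOrder K (twist D) = Pool.Agent.Y698.SG.tnum (Pool.Agent.Y698.AX K j) := by
    unfold torsOrder Pool.Agent.Y698.SG.tnum
    rw [base_eq hDj]
  have heq := Pool.Agent.Y698.SG.equiv_all (CyclotomicField r ℚ) K hK hn hir hQ' hP' hj
  obtain ⟨Λ, h1, h2, h3⟩ := Pool.Agent.Y698.SG.level_all (CyclotomicField r ℚ) K hK hn hir hQ' hP' hj
  simp only [han, hst]
  rw [base_eq hDj]
  have hlow : low r n Q P = Pool.Agent.Y698.SG.lowd r n Q P := rfl
  have hl0 : low r n Q P ≠ 0 := by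
    rw [hlow]
    refine Pool.Agent.Y698.SG.lowd_ne (CyclotomicField r ℚ) K hK
      (fun q hq => Pool.Agent.Y698.SG.nat_ne_zero hr (hQ' q hq).1.pr (hQ' q hq).2)
      (fun p hp => Pool.Agent.Y698.SG.nat_ne_zero hr (hP' p hp).pr (hPr p hp))
  have hdiv : ∃ m : ℤ, Odd m ∧ _root_.IsIntegral ℤ ((m : ℂ) *
      (Pool.Agent.Y698.SG.quoT K j (Λ 1) / (low r n Q P : ℂ) ^ 2)) := by
    refine Pool.Agent.Y698.int_of_val fun Γ _ v hv => ?_
    have h5 := Pool.Agent.Y698.SG.level_low (CyclotomicField r ℚ) K hK hir hQ' hP' hj h1 h2 v hv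
    have h6 : v ((low r n Q P : ℂ) ^ 2) ≠ 0 := by
      rw [Valuation.ne_zero_iff]
      exact pow_ne_zero 2 (Nat.cast_ne_zero.2 hl0)
    rw [map_div₀, div_le_iff₀ (zero_lt_iff.2 h6), one_mul]
    exact h5
  have hfam : Finite (Pool.Agent.Y698.AX K j).toAffine.Point →
      2 ^ defect r n Q P ≤ {x : Sha (Pool.Agent.Y698.AX K j) | x + x = 0}.encard := by
    intro hf
    obtain ⟨f, hfi, hf2⟩ := Pool.Agent.Y698.SG.sha_card (CyclotomicField r ℚ) K hK hn hir hQ' hP' hj hf
      (Q4 := rest r n Q) (P1 := rows r n P) (fun q => mem_rest) (fun p => mem_rows)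
    have h4 : Set.range f ⊆ {x : Sha (Pool.Agent.Y698.AX K j) | x + x = 0} := by
      rintro _ ⟨x, rfl⟩
      exact hf2 x
    have h5 := hfi.encard_range.trans (Set.encard_le_encard h4)
    rw [ENat.card_eq_coe_fintype_card, Fintype.card_fin] at h5
    have h6 : (2 ^ defect r n Q P : ℕ∞) = ((2 ^ defect r n Q P : ℕ) : ℕ∞) := by push_cast; rfl
    rw [h6]
    exact h5
  refine ⟨fun v => Pool.Agent.Y698.SG.minimal_E (CyclotomicField r ℚ) K h7 hgp hj v,
    Pool.Agent.Y698.SG.tnum_AX (CyclotomicField r ℚ) K h7 j, heq.symm, ?_, hfam, Λ, h1, h2,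
    ⟨hl0, hdiv⟩, h3, ?_⟩
  · intro hC
    obtain ⟨k, rfl⟩ : ∃ k, n = k + 1 := ⟨n - 1, by omega⟩
    have hdt : Pool.Agent.Y698.SG.Dt r (k + 1) Q P :=
      ⟨hn, hir, fun q hq => ⟨(hQ' q hq).1, (hQ' q hq).2, hC.1 q hq⟩,
        fun p hp => ⟨hP' p hp, hC.2.1 p hp⟩, hC.2.2⟩
    refine ⟨?_, Pool.Agent.Y698.SG.tam_prodE (CyclotomicField r ℚ) K hK hdt hj⟩
    apply Set.eq_singleton_iff_unique_mem.2
    refine ⟨⟨0, smul_zero _⟩, ?_⟩
    rintro x ⟨l, hl⟩
    exact Pool.Agent.Y698.SG.sha_two_powE (CyclotomicField r ℚ) K hK hdt hj x l hl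
  · intro hC
    have hz : ∀ (Γ : Type) [LinearOrderedCommGroupWithZero Γ] (v : Valuation ℂ Γ), v 2 < 1 →
        v (Pool.Agent.Y698.SG.quoT K j (Λ 1)) = 1 := fun Γ _ v hv => ((h3 Γ v hv).2).2 hC
    refine ⟨?_, Pool.Agent.Y698.int_of_val fun Γ _ v hv => by rw [map_inv₀, hz Γ v hv, inv_one]⟩
    intro h0
    refine Pool.Agent.Y698.SG.exists_val2 fun Γ _ v hv => ?_
    have h5 := hz Γ v hv
    rw [h0] at h5
    unfold Pool.Agent.Y698.SG.quoT at h5
    rw [zero_mul, zero_mul, zero_div, map_zero] at h5
    exact zero_ne_one h5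

end Pool.Agent.Results.MP_1a91b9_nt.FormulaModTwoAllTwists
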