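import Pool.Agent.Y699.Pos
import Pool.Agent.Y699.Mn

/-!
# The Birch and Swinnerton-Dyer conjecture for a positive proportion of the quadratic twists of
# `y² = x³ - x` over `ℚ(i)`

`K` is a number field with an isomorphism `e` of the ring `ℤ[i]` of Gaussian integers with its ring
of integers (so `K = ℚ(i)`), and `E_D : y² = x³ - D² x` the quadratic twist of `y² = x³ - x` by
the Gaussian integer `D`.  For a positive proportion of the squarefree Gaussian integers `D`, ordered by
norm, the rank part of the Birch and Swinnerton-Dyer conjecture holds for `E_D / K` with order of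
vanishing and rank zero.
-/

set_option autoImplicit false

namespace Pool.Agent.Results.MP_1a91b9_nt.PositiveProportionGaussianTwists

open NumberField IsDedekindDomain

/-- `W v` is, for every finite place `v`, an integral model of `E` with discriminant minimal at
`v`. -/
def MinimalModels {K : Type} [Field K] [NumberField K] (E : WeierstrassCurve K)
    (W : HeightOneSpectrum (𝓞 K) → WeierstrassCurve (𝓞 K)) : Prop :=
  ∀ v : HeightOneSpectrum (𝓞 K),
    (∃ C : WeierstrassCurve.VariableChange K, C • (W v).map (algebraMap (𝓞 K) K) = E) ∧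
    ∀ W' : WeierstrassCurve (𝓞 K),
      (∃ C : WeierstrassCurve.VariableChange K, C • W'.map (algebraMap (𝓞 K) K) = E) →
      ∀ n : ℕ, (W v).Δ ∈ v.asIdeal ^ n → W'.Δ ∈ v.asIdeal ^ n

open Classical in
/-- The Euler factor at `v`, `(1 - a_v Nv^{-s} + Nv^{1-2s})⁻¹` if the reduction at `v` is good and
`(1 - a_v Nv^{-s})⁻¹` if it is bad, where `a_v` is `Nv` minus the number of affine points of the
reduction of `W v`. -/
noncomputable def localFactor {K : Type} [Field K] [NumberField K]
    (W : HeightOneSpectrum (𝓞 K) → WeierstrassCurve (𝓞 K)) (v : HeightOneSpectrum (𝓞 K))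
    (s : ℂ) : ℂ :=
  (1 - ((Ideal.absNorm v.asIdeal : ℂ)
        - (Nat.card {xy : (𝓞 K ⧸ v.asIdeal) × (𝓞 K ⧸ v.asIdeal) //
            ((W v).map (Ideal.Quotient.mk v.asIdeal)).toAffine.Equation xy.1 xy.2} : ℂ))
        * (Ideal.absNorm v.asIdeal : ℂ) ^ (-s)
    + (if (W v).Δ ∈ v.asIdeal then 0 else (Ideal.absNorm v.asIdeal : ℂ))
        * (Ideal.absNorm v.asIdeal : ℂ) ^ (-2 * s))⁻¹

/-- The rank part of the conjecture for `E`, with order and rank equal to `r`: `E` has minimal models,
its `L`-series, the product of the Euler factors for `Re s > 3/2`, extends to an entire function `L`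
with a zero of order `r` at `s = 1`, and the group `E(K)` is finitely generated of rank `r`. -/
def BSDRank {K : Type} [Field K] [NumberField K] [DecidableEq K] (E : WeierstrassCurve K) (r : ℕ) :
    Prop :=
  (∃ W : HeightOneSpectrum (𝓞 K) → WeierstrassCurve (𝓞 K), MinimalModels E W) ∧
  (∃ L : ℂ → ℂ, Differentiable ℂ L ∧
    (∀ W : HeightOneSpectrum (𝓞 K) → WeierstrassCurve (𝓞 K), MinimalModels E W →
      ∀ s : ℂ, 3 / 2 < s.re → HasProd (fun v => localFactor W v s) (L s)) ∧
    analyticOrderAt L 1 = r) ∧
  Module.Finite ℤ E.toAffine.Point ∧ Module.finrank ℤ E.toAffine.Point = r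

/-- The curve `y² = x³ - D² x`. -/
noncomputable def twist {K : Type} [Field K] [NumberField K] (e : GaussianInt ≃+* 𝓞 K)
    (D : GaussianInt) : WeierstrassCurve K :=
  ⟨0, 0, 0, -(algebraMap (𝓞 K) K (e D)) ^ 2, 0⟩

/-- `D ≡ 1 mod 2 + 2i`. -/
def Primary (D : GaussianInt) : Prop := (⟨2, 2⟩ : GaussianInt) ∣ D - 1

/-- The rank part of the conjecture holds for `E_D` over `K = ℚ(i)`, with order of vanishing and rank
equal to zero, and `E_D(K)` has exactly four elements. -/
theorem twist_good {D : GaussianInt} (hg : Pool.Agent.Y699.Good D) (K : Type) [Field K]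
    [NumberField K] [DecidableEq K] (e : GaussianInt ≃+* 𝓞 K) :
    BSDRank (twist e D) 0 ∧ Nat.card (twist e D).toAffine.Point = 4 := by
  have hc : Nat.card (twist e D).toAffine.Point = 4 := by
    have h0 : algebraMap (𝓞 K) K (e D) ≠ 0 := by
      rw [Ne, map_eq_zero_iff _ (IsFractionRing.injective (𝓞 K) K), map_eq_zero_iff _ e.injective]
      exact hg.ps.ne
    exact Pool.Agent.Y699.card_pts h0 two_ne_zero (fun x y h => Pool.Agent.Y699.crit_pts hg e h)
  have hfin : Finite (twist e D).toAffine.Point := by
    apply Nat.finite_of_card_ne_zero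
    rw [hc]
    norm_num
  obtain ⟨L, hL1, hL2, hL3⟩ := Pool.Agent.Y699.crit_L hg e
  refine ⟨⟨⟨fun _ => Pool.Agent.Y699.crv (e D), fun v => Pool.Agent.Y699.crv_min e hg.ps v⟩,
    ⟨L, hL1, fun W hW s hs => ?_, ?_⟩, ?_, ?_⟩, hc⟩
  · exact hL3 W hW s hs
  · exact (hL1.analyticAt 1).analyticOrderAt_eq_zero.2 hL2
  · infer_instance
  · exact Module.finrank_eq_zero_of_rank_eq_zero (rank_eq_zero_iff.2 (by
      intro x
      refine ⟨(Nat.card (twist e D).toAffine.Point : ℤ), by rw [hc]; norm_num, ?_⟩
      rw [natCast_zsmul, card_nsmul_eq_zero']))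

/-- The set of primary squarefree Gaussian integers `D` of norm at most `X` such that, for `K = ℚ(i)`
(every number field `K` with an isomorphism `e` of `ℤ[i]` with its ring of integers), the rank part
of the conjecture holds for `y² = x³ - D² x` over `K` with order of vanishing and rank equal to zero, and
this curve has exactly four points over `K`. -/
def Twists (X : ℕ) : Set GaussianInt :=
  {D | Primary D ∧ Squarefree D ∧ D.norm ≤ X ∧
    ∀ (K : Type) [Field K] [NumberField K] [DecidableEq K] (e : GaussianInt ≃+* 𝓞 K),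
      BSDRank (twist e D) 0 ∧ Nat.card (twist e D).toAffine.Point = 4}

theorem twists_finite (X : ℕ) : (Twists X).Finite := by
  refine (Pool.Agent.Y699.fin_norm_le X).subset ?_
  rintro D ⟨-, -, h, -⟩
  have h0 := GaussianInt.norm_nonneg D
  show D.norm.natAbs ≤ X
  omega

/-- **Main theorem.**  There is `c > 0` such that for all large `X` at least `c X` of the primary
squarefree Gaussian integers `D` of norm at most `X` have the property that the rank part of the Birch
and Swinnerton-Dyer conjecture holds for `y² = x³ - D² x` over `ℚ(i)`, with order of vanishing and rank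
equal to zero. -/
theorem result : ∃ c : ℝ, 0 < c ∧ ∃ X₀ : ℕ, ∀ X : ℕ, X₀ ≤ X → c * X ≤ ((Twists X).ncard : ℝ) := by
  obtain ⟨c, hc, X₀, h⟩ := Pool.Agent.Y699.positive
  refine ⟨c, hc, X₀, fun X hX => (h X hX).trans ?_⟩
  have h1 : ((Pool.Agent.Y699.GB X : Finset GaussianInt) : Set GaussianInt) ⊆ Twists X := by
    intro D hD
    have h2 : D ∈ Pool.Agent.Y699.SB X ∧ Pool.Agent.Y699.Good D := by
      have h0 := Finset.mem_coe.1 hD
      unfold Pool.Agent.Y699.GB at h0
      classical
      exact Finset.mem_filter.1 h0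
    have h3 := (Pool.Agent.Y699.mem_SB).1 h2.1
    refine ⟨(Pool.Agent.W164.RC.prim_iff_dvd D).1 h3.2.prm, h3.2.sqf, ?_, fun K _ _ _ e =>
      twist_good h2.2 K e⟩
    have h4 : D.norm.natAbs ≤ X := h3.1
    omega
  have h5 := Set.ncard_le_ncard h1 (twists_finite X)
  rw [Set.ncard_coe_finset] at h5
  exact_mod_cast h5

end Pool.Agent.Results.MP_1a91b9_nt.PositiveProportionGaussianTwists
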