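import Pool.Agent.Y699.R10
import Pool.Agent.Y699.Cls
import Pool.Agent.Y715.QT.Top2
import Pool.Agent.Y715.QT.Seq2
import Pool.Agent.Y715.QT.SplG
import Pool.Agent.Y155.QT.Mix
import Pool.Agent.Y394.QT.Dim2
import Pool.Agent.Y427.QT.Loc2
import Pool.Agent.Y474.QT.Loc
import Pool.Agent.Y495.QT.Cnt
import Pool.Agent.Y495.QT.Pri
import Pool.Agent.Y809.QT.Eul
import Pool.Agent.Y828.QT.GM
import Pool.Agent.Y261.QT.DES
import Pool.Agent.Y978.QT.RKG
import Pool.Agent.Y715.CS.Fin

/-!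
# Rank part of the Birch and Swinnerton-Dyer conjecture and finiteness of the 2-primary part of `Ш` over
# the fields `ℚ(i)(⁴√l, √q)`, for a positive proportion of the elliptic curves over `ℚ(i)` with
# `j`-invariant `1728`

Every elliptic curve over `ℚ(i)` with `j = 1728` is isomorphic to `E_D : y² = x³ + D x` for exactly one
Gaussian integer `D` that no fourth power of a prime divides.  We prove that for a positive
proportion of all these `D`, ordered by norm, there is an infinite set `Q` of primes `l` such that for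
every finite subset `S₄` of `Q` and every finite set `S₂` of allowed primes `q` (infinitely many) the
following holds for `F = ℚ(i)(⁴√l, √q : l ∈ S₄, q ∈ S₂)`, an abelian extension of `ℚ(i)` of degree
`4 ^ #S₄ · 2 ^ #S₂` (`F = ℚ(i)` if both sets are empty): `E_D(F)` is finite, `L(E_D/F, s)` has an entire
continuation, `L(E_D/F, 1) ≠ 0`, and the 2-primary part of `Ш(E_D/F)` is finite and killed by
`[F : ℚ(i)]`.

The `Ш`-part: the curve `E_D` over `F` is the base change of all the quartic twists `E_D'`,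
`D' = D ∏ l ^ a_l ∏ q ^ (2 b_q)`.  The 2-primary part of `Ш(E_D'/ℚ(i))` is trivial for all of them, so all
the corestrictions of a class of `Ш(E_D/F)` of 2-power order vanish, and the sum of
their restrictions over all the characters is `[F : ℚ(i)]` times the class.

The parts are in the files of helpers 155, 261, 394, 427, 448, 474, 495, 529, 809, 828, 968, 978 (`QT`) and
195, 523 (`CS`); the libraries are those of helper699 (central values, positive proportion), helper697
(multiquadratic fields), helper682 (descent) and `TH841` (Tate-Shafarevich groups).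
-/

set_option autoImplicit false

namespace Pool.Agent.Results.MP_1a91b9_nt.TowersFiniteSha

open Filter Topology NumberField IsDedekindDomain

/-- `d` is primary: `d ≡ 1` modulo `2 + 2i`. -/
def Primary (d : GaussianInt) : Prop := (⟨2, 2⟩ : GaussianInt) ∣ d - 1

variable {F : Type} [Field F] [NumberField F]

/-- `F = ℚ(i)(⁴√l, √q : l ∈ S₄, q ∈ S₂)`, where `ℤ[i]` is embedded in `F` by `ι`. -/
def Generated (ι : GaussianInt →+* 𝓞 F) (S₄ S₂ : Finset GaussianInt) : Prop :=
  ∃ r : GaussianInt → 𝓞 F, (∀ l ∈ S₄, r l ^ 4 = ι l) ∧ (∀ q ∈ S₂, r q ^ 2 = ι q) ∧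
    ∀ L : Subfield F, (∀ g : GaussianInt, (ι g : F) ∈ L) → (∀ l ∈ S₄, (r l : F) ∈ L) →
      (∀ q ∈ S₂, (r q : F) ∈ L) → L = ⊤

/-- `q_v`, the number of elements of the residue field `k_v`. -/
noncomputable def q (v : HeightOneSpectrum (𝓞 F)) : ℕ := Ideal.absNorm v.asIdeal

/-- `#E(k_v)` with the point at infinity, for `E : y² = x³ + a x`. -/
noncomputable def numPoints (a : 𝓞 F) (v : HeightOneSpectrum (𝓞 F)) : ℕ :=
  Nat.card {P : (𝓞 F ⧸ v.asIdeal) × (𝓞 F ⧸ v.asIdeal) // P.2 ^ 2 =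
    P.1 ^ 3 + Ideal.Quotient.mk v.asIdeal a * P.1} + 1

/-- The Euler factor `(1 - a_v q_v^{-s} + q_v^{1-2s})⁻¹` of `y² = x³ + a x`,
`a_v = q_v + 1 - #E(k_v)`. -/
noncomputable def factor (a : 𝓞 F) (s : ℂ) (v : HeightOneSpectrum (𝓞 F)) : ℂ :=
  (1 - ((q v : ℂ) + 1 - numPoints a v) * (q v : ℂ) ^ (-s) + (q v : ℂ) ^ (1 - 2 * s))⁻¹

/-- The curve `y² = x³ + a x` over `F`. -/
noncomputable def curve (a : 𝓞 F) : WeierstrassCurve F :=
  { a₁ := 0, a₂ := 0, a₃ := 0, a₄ := (a : F), a₆ := 0 }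

open Classical in
/-- The rank of the group of `F`-rational points. -/
noncomputable def rank (a : 𝓞 F) : ℕ := Module.finrank ℤ (curve a).toAffine.Point

/-- For `E : y² = x³ + D x` the group `E(F)` is finite, the Euler product over the places of `F` which
do not divide `M` has an entire continuation `L` with `L(1) ≠ 0`, and the order of `L` at `1` is the
rank. -/
def RankZero (ι : GaussianInt →+* 𝓞 F) (M D : GaussianInt) : Prop :=
  Finite (curve (ι D)).toAffine.Point ∧ ∃ L : ℂ → ℂ, Differentiable ℂ L ∧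
    (∀ z : ℂ, 3 / 2 < z.re → HasProd (fun v : {v : HeightOneSpectrum (𝓞 F) //
      ι M ∉ v.asIdeal} => factor (ι D) z v.1) (L z)) ∧
    L 1 ≠ 0 ∧ analyticOrderAt L 1 = rank (ι D)

open Pool.Agent.TH841.NF.D (Sha) in
/-- The 2-primary part of the Tate-Shafarevich group of `y² = x³ + D x` over `F` is finite, and `n` kills
it. -/
def ShaTwo (ι : GaussianInt →+* 𝓞 F) (D : GaussianInt) (n : ℕ) : Prop :=
  {x : Sha (curve (ι D)) | ∃ m : ℕ, 2 ^ m • x = 0}.Finite ∧
    ∀ x : Sha (curve (ι D)), (∃ m : ℕ, 2 ^ m • x = 0) → n • x = 0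

/-- `D` is not zero and no fourth power of a prime divides it. -/
def FourthPowerFree (D : GaussianInt) : Prop := D ≠ 0 ∧ ∀ π : GaussianInt, Prime π → ¬ π ^ 4 ∣ D

/-- All the parameters `D` of norm at most `X`; each of them is one elliptic curve over `ℚ(i)` with
`j = 1728`, up to isomorphism. -/
def Family (X : ℕ) : Set GaussianInt := {D | FourthPowerFree D ∧ D.norm ≤ X}

/-- The primes allowed for the square roots: `q` is a primary prime that does not divide `D`, of norm
`1` modulo `8`, `D` is not a square modulo `q`, and the elements of `S₄` are prime to `q` and squares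
modulo `q`. -/
def Allowed (D : GaussianInt) (S₄ : Finset GaussianInt) : Set GaussianInt :=
  {q | Prime q ∧ Primary q ∧ ¬ q ∣ D ∧ q.norm % 8 = 1 ∧ (¬ ∃ x : GaussianInt, q ∣ D - x ^ 2) ∧
    ∀ l ∈ S₄, ¬ q ∣ l ∧ ∃ x : GaussianInt, q ∣ l - x ^ 2}

/-- Those `D` for which there is an infinite set `Q` of primary primes not dividing `D` such that for
every finite subset `S₄` of `Q` the set `Allowed D S₄` is infinite, and for every finite subset `S₂` of
`Allowed D S₄` the field `F = ℚ(i)(⁴√l, √q : l ∈ S₄, q ∈ S₂)` has degree `2 · 4 ^ #S₄ · 2 ^ #S₂`, the rank of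
`E_D : y² = x³ + D x` over it and the order of vanishing of the `L`-function are zero, and the 2-primary
part of `Ш(E_D/F)` is finite and killed by `4 ^ #S₄ · 2 ^ #S₂ = [F : ℚ(i)]`. -/
def Tower (X : ℕ) : Set GaussianInt := {D | D ∈ Family X ∧
  ∃ Q : Set GaussianInt, Q.Infinite ∧ (∀ l ∈ Q, Prime l ∧ Primary l ∧ ¬ l ∣ D) ∧
    ∀ S₄ : Finset GaussianInt, (∀ l ∈ S₄, l ∈ Q) → (Allowed D S₄).Infinite ∧
      ∀ S₂ : Finset GaussianInt, (∀ q ∈ S₂, q ∈ Allowed D S₄) →
        ∀ (F : Type) [Field F] [NumberField F] (ι : GaussianInt →+* 𝓞 F), Generated ι S₄ S₂ →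
          Module.finrank ℚ F = 2 * (4 ^ S₄.card * 2 ^ S₂.card) ∧
          RankZero ι (2 * D * ((∏ l ∈ S₄, l) * ∏ q ∈ S₂, q)) D ∧
          ShaTwo ι D (4 ^ S₄.card * 2 ^ S₂.card)}

theorem primary_iff (d : GaussianInt) :
    Primary d ↔ Pool.Agent.H304R2.EC.A1.prim d := (Pool.Agent.W164.RC.prim_iff_dvd d).symm

theorem pp_iff (d : GaussianInt) : Prime d ∧ Primary d ↔ Pool.Agent.Y699.PP d :=
  ⟨fun h => ⟨h.1, (primary_iff d).1 h.2⟩, fun h => ⟨h.pr, (primary_iff d).2 h.prm⟩⟩

theorem allowed_eq (D : GaussianInt) (S₄ : Finset GaussianInt) :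
    Allowed D S₄ = {q | Pool.Agent.Y715.QT.Alw D S₄ q} := by
  ext q
  constructor
  · rintro ⟨h1, h2, h3, h4, h5, h6⟩
    exact ⟨(pp_iff q).1 ⟨h1, h2⟩, h3, h4, h5, h6⟩
  · intro h
    have h1 := (pp_iff q).2 h.pp
    exact ⟨h1.1, h1.2, h.nd, h.nm, h.ns, h.cr⟩

theorem factor_eq (a : 𝓞 F) (s : ℂ) (v : HeightOneSpectrum (𝓞 F)) :
    Pool.Agent.Y715.QT.ef a s v = factor a s v := by
  unfold Pool.Agent.Y715.QT.ef factor numPoints q Pool.Agent.Y699.cnt4
  push_cast
  rw [add_sub_add_right_eq_sub]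

theorem family_finite (X : ℕ) : (Family X).Finite := by
  refine (Pool.Agent.Y699.fin_norm_le X).subset ?_
  rintro D ⟨-, h⟩
  have h0 := GaussianInt.norm_nonneg D
  show D.norm.natAbs ≤ X
  omega

/-- There are at most `9 X` parameters of norm at most `X`. -/
theorem family_le {X : ℕ} (hX : 1 ≤ X) : (Family X).ncard ≤ 9 * X := by
  classical
  set s := Nat.sqrt X with hs
  have hs1 : 1 ≤ s := Nat.le_sqrt.2 (by omega)
  set B : Finset (ℤ × ℤ) := (Finset.Icc (-(s : ℤ)) s) ×ˢ (Finset.Icc (-(s : ℤ)) s) with hB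
  have hinj : Set.InjOn (fun D : GaussianInt => (D.re, D.im)) (Family X) := by
    intro a _ b _ hab
    simp only [Prod.mk.injEq] at hab
    exact Zsqrtd.ext hab.1 hab.2
  have hmaps : ∀ D ∈ Family X, (fun D : GaussianInt => (D.re, D.im)) D ∈ (B : Set (ℤ × ℤ)) := by
    rintro D ⟨-, h⟩
    have h1 : D.norm = D.re ^ 2 + D.im ^ 2 := by
      rw [Zsqrtd.norm_def]; ring
    have h4 : D.re.natAbs ≤ s := by
      rw [hs, Nat.le_sqrt']; zify; rw [sq_abs]; nlinarith [sq_nonneg D.im]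
    have h5 : D.im.natAbs ≤ s := by
      rw [hs, Nat.le_sqrt']; zify; rw [sq_abs]; nlinarith [sq_nonneg D.re]
    rw [hB, Finset.mem_coe, Finset.mem_product, Finset.mem_Icc, Finset.mem_Icc]
    refine ⟨⟨?_, ?_⟩, ⟨?_, ?_⟩⟩ <;> simp only <;> omega
  have h1 := Set.ncard_le_ncard_of_injOn _ hmaps hinj (Finset.finite_toSet B)
  rw [Set.ncard_coe_finset] at h1
  refine h1.trans ?_
  have h2 : (Finset.Icc (-(s : ℤ)) s).card = 2 * s + 1 := by
    rw [Int.card_Icc]; omega
  rw [hB, Finset.card_product, h2]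
  have h3 : s * s ≤ X := Nat.sqrt_le X
  nlinarith

theorem good_tower (pri : Pool.Agent.Y715.QT.S_PRI) (spl : Pool.Agent.Y715.QT.S_SPL2)
    (cnt : Pool.Agent.Y715.QT.S_CNT) (rk : Pool.Agent.Y715.QT.S_RK2)
    (eul : Pool.Agent.Y715.QT.S_EUL) (loc : Pool.Agent.Y715.QT.S_LOC2)
    (gm : Pool.Agent.Y715.QT.S_GM) (des : Pool.Agent.Y715.QT.S_DES) {D : GaussianInt}
    (hg : Pool.Agent.Y699.Good4 D) :
    ∃ Q : Set GaussianInt, Q.Infinite ∧ (∀ l ∈ Q, Prime l ∧ Primary l ∧ ¬ l ∣ D) ∧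
    ∀ S₄ : Finset GaussianInt, (∀ l ∈ S₄, l ∈ Q) → (Allowed D S₄).Infinite ∧
      ∀ S₂ : Finset GaussianInt, (∀ q ∈ S₂, q ∈ Allowed D S₄) →
        ∀ (F : Type) [Field F] [NumberField F] (ι : GaussianInt →+* 𝓞 F), Generated ι S₄ S₂ →
          Module.finrank ℚ F = 2 * (4 ^ S₄.card * 2 ^ S₂.card) ∧
          RankZero ι (2 * D * ((∏ l ∈ S₄, l) * ∏ q ∈ S₂, q)) D ∧
          ShaTwo ι D (4 ^ S₄.card * 2 ^ S₂.card) := by
  classical
  have hD := hg.ps.ne
  obtain ⟨p1, hp1⟩ := Pool.Agent.Y715.QT.exists_p1 hg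
  obtain ⟨Q, hQ1, hQ2, hQ3⟩ := Pool.Agent.Y715.QT.exists_set pri hD hp1
  refine ⟨Q, hQ1, fun l hl => ?_, fun S₄ hS₄ => ⟨?_, fun S₂ hS₂ F _ _ ι hF => ?_⟩⟩
  · have h1 := (pp_iff l).2 (hQ2 l hl).1
    exact ⟨h1.1, h1.2, (hQ2 l hl).2⟩
  · rw [allowed_eq]
    exact Pool.Agent.Y715.QT.alw_infinite pri hg hp1 (hQ3 S₄ hS₄)
  · obtain ⟨r, hr⟩ := hF
    have hA : Pool.Agent.Y715.QT.Adm2 D p1 S₄ S₂ :=
      Pool.Agent.Y715.QT.adm2_of (hQ3 S₄ hS₄) fun q hq => by
        have h1 := hS₂ q hq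
        rw [allowed_eq] at h1
        exact h1
    obtain ⟨h1, L, hL1, hL2, hL3⟩ := Pool.Agent.Y715.QT.core2 spl cnt rk eul loc gm des hg hp1 hA ι hr
    have h1' : Finite (curve (ι D)).toAffine.Point := h1
    refine ⟨Pool.Agent.Y394.QT.dim2 F ι S₄ S₂ r hA.a4.pp hA.pp hA.dj hr,
      ⟨h1', L, hL1, fun z hz => ?_, hL2, ?_⟩, Pool.Agent.Y715.CS.sha_tower hg hA hp1 ι hr⟩
    · refine (hL3 z hz).congr_fun fun v => ?_
      exact (factor_eq _ _ _).symm
    · rw [AnalyticAt.analyticOrderAt_eq_zero (hL1.analyticAt 1) |>.2 hL2]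
      have h2 : Module.rank ℤ (curve (ι D)).toAffine.Point = 0 := by
        rw [rank_eq_zero_iff]
        intro x
        exact ⟨(Nat.card (curve (ι D)).toAffine.Point : ℤ),
          by exact_mod_cast Nat.card_pos.ne', by rw [natCast_zsmul]; exact card_nsmul_eq_zero'⟩
      have h3 : rank (ι D) = 0 := by
        unfold rank
        rw [Module.finrank]
        simp only [h2, map_zero]
      rw [h3]
      rfl

/-- Every elliptic curve over `ℚ(i)` with `j = 1728` is isomorphic to `y² = x³ + D x` for exactly one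
`D` that no fourth power of a prime divides. -/
theorem classification {K : Type} [Field K] [NumberField K] (e : GaussianInt ≃+* 𝓞 K)
    (E : WeierstrassCurve K) [E.IsElliptic] (hj : E.j = 1728) :
    ∃! D : GaussianInt, FourthPowerFree D ∧
      ∃ C : WeierstrassCurve.VariableChange K, C • E = curve (e D) := by
  let _ : Algebra GaussianInt K := ((algebraMap (𝓞 K) K).comp (e : GaussianInt →+* 𝓞 K)).toAlgebra
  have _ : IsFractionRing GaussianInt K := IsFractionRing.of_ringEquiv_left e (fun _ => rfl)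
  exact Pool.Agent.Y699.cls1728 E hj

/-- **Main theorem.**  There is `c > 0` such that for all large `X` at least the proportion `c` of all
Gaussian integers `D` of norm at most `X` that no fourth power of a prime divides, and at least `c X` of
them, have the following property for `E_D : y² = x³ + D x`.  There is an infinite set `Q` of primes
such that for every finite subset `S₄` of `Q` there are infinitely many allowed primes, and for every
finite set `S₂` of allowed primes and `F = ℚ(i)(⁴√l, √q : l ∈ S₄, q ∈ S₂)`: `[F : ℚ(i)] = 4 ^ #S₄ · 2 ^ #S₂`,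
`E_D(F)` is finite, `L(E_D/F, s)` is entire, its order of vanishing at `1` is `0`, the rank, and the
2-primary part of `Ш(E_D/F)` is finite and killed by `[F : ℚ(i)]`.  By the theorem `classification` these
`D` are the isomorphism classes of the elliptic curves over `ℚ(i)` with `j`-invariant `1728`. -/
theorem result : ∃ c : ℝ, 0 < c ∧ ∃ X₀ : ℕ, ∀ X : ℕ, X₀ ≤ X →
    c * ((Family X).ncard : ℝ) ≤ ((Tower X).ncard : ℝ) ∧ c * X ≤ ((Tower X).ncard : ℝ) := by
  obtain ⟨c, hc, X₀, h⟩ := Pool.Agent.Y699.positive₄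
  have key : ∀ X : ℕ, X₀ ≤ X → c * X ≤ ((Tower X).ncard : ℝ) := by
    intro X hX
    refine (h X hX).trans ?_
    have h1 : ((Pool.Agent.Y699.GB₄ X : Finset GaussianInt) : Set GaussianInt) ⊆ Tower X := by
      intro D hD
      have h2 : D ∈ Pool.Agent.Y699.SB X ∧ Pool.Agent.Y699.Good4 D := by
        have h0 := Finset.mem_coe.1 hD
        unfold Pool.Agent.Y699.GB₄ at h0
        classical
        exact Finset.mem_filter.1 h0
      have h3 := (Pool.Agent.Y699.mem_SB).1 h2.1
      refine ⟨⟨⟨h3.2.ne, fun π hπ h5 => ?_⟩, ?_⟩, 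
        good_tower Pool.Agent.Y495.QT.pri
          (Pool.Agent.Y155.QT.spl2 Pool.Agent.Y715.QT.splg Pool.Agent.Y394.QT.dim2)
          Pool.Agent.Y495.QT.cnt (Pool.Agent.Y155.QT.rk2 Pool.Agent.Y978.QT.rkg)
          Pool.Agent.Y809.QT.eul (Pool.Agent.Y427.QT.loc2 Pool.Agent.Y474.QT.loc)
          Pool.Agent.Y828.QT.gm Pool.Agent.Y261.QT.des h2.2⟩
      · exact hπ.not_isUnit (h3.2.sqf π (dvd_trans ⟨π ^ 2, by ring⟩ h5))
      · have h4 : D.norm.natAbs ≤ X := h3.1
        omega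
    have h5 := Set.ncard_le_ncard h1 ((family_finite X).subset fun D hD => hD.1)
    rw [Set.ncard_coe_finset] at h5
    exact_mod_cast h5
  refine ⟨c / 9, by positivity, max X₀ 1, fun X hX => ?_⟩
  have hX0 : X₀ ≤ X := (le_max_left _ _).trans hX
  have hX1 : 1 ≤ X := (le_max_right _ _).trans hX
  have h1 := key X hX0
  have h2 : ((Family X).ncard : ℝ) ≤ 9 * X := by exact_mod_cast family_le hX1
  have h3 : (0 : ℝ) ≤ X := Nat.cast_nonneg X
  constructor
  · calc c / 9 * ((Family X).ncard : ℝ) ≤ c / 9 * (9 * X) :=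
          mul_le_mul_of_nonneg_left h2 (by positivity)
      _ = c * X := by ring
      _ ≤ _ := h1
  · calc c / 9 * (X : ℝ) ≤ c * X := by nlinarith
      _ ≤ _ := h1

end Pool.Agent.Results.MP_1a91b9_nt.TowersFiniteSha
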